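import Mathlib
import Pool.Agent.R92.Lev

set_option autoImplicit false

/-!
# Sets of doubling 9/4 in cyclic groups without an efficient pair `(P, H)`

In `Z_{2h} × Z_q ≅ Z_{2hq}` (`h` a large power of 2, `q` a much larger prime) let `E` be the subgroup
of order `h` of `Z_{2h}` and `A = (Z_{2h} × {0}) ∪ (E × {1, 3})`. Then `|A| = 4h`, `|2A| = 9h`. For a
subgroup `H` of index `w` in `Z_{2h} × {0}` and a bounded set `P` with `A ⊆ P + H`, Kneser's theorem in
the fibres gives `|2P| - |P| ≥ 3w`, so that `(|2P| - |P|)|H| ≥ 6h > 5h = |2A| - |A|`.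
-/

namespace Pool.Agent.Results.MP_09e095_co.NoEfficientPair

open Finset
open scoped Pointwise

/-- `P` is an arithmetic progression with at least two elements: `P = {g + i d : 0 ≤ i < N}`. -/
def IsAP {G : Type*} [AddCommGroup G] (P : Finset G) : Prop :=
  2 ≤ P.card ∧ ∃ (g d : G) (N : ℕ), ∀ x, x ∈ P ↔ ∃ i : ℕ, i < N ∧ x = g + i • d

theorem result : ∀ ε : ℝ, 0 < ε → ε < 3 / 4 → ∀ C₁ C₂ : ℝ, 0 < C₁ → 0 < C₂ →
    ∃ (n : ℕ) (A : Finset (ZMod n)), 0 < n ∧ A.Nonempty ∧
      (A.card : ℝ) < C₁⁻¹ * n ∧ ((A + A).card : ℝ) < (3 - ε) * A.card ∧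
      ((A + A).card : ℝ) ≤ 9 / 4 * A.card ∧
      ∀ (H : AddSubgroup (ZMod n)) (P : Finset (ZMod n)), H ≠ ⊤ →
        (∀ a ∈ A, ∃ p ∈ P, ∃ h ∈ H, a = p + h) →
        ((P.card : ℝ) ≤ C₂ →
          ((A + A).card : ℝ) - A.card < (((P + P).card : ℝ) - P.card) * Nat.card H) ∧
        (IsAP P → ((A + A).card : ℝ) - A.card < ((P.card : ℝ) - 1) * Nat.card H) ∧
        (IsAP P → (P.card : ℝ) * Nat.card H ≤ C₁ * A.card →
          ((A + A).card : ℝ) - A.card < (((P + P).card : ℝ) - P.card) * Nat.card H) := by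
  intro ε hε hε2 C₁ C₂ hC₁ hC₂
  obtain ⟨C, hC⟩ := exists_nat_ge (max C₁ C₂)
  have hC1 : C₁ ≤ C := (le_max_left _ _).trans hC
  have hC2 : C₂ ≤ C := (le_max_right _ _).trans hC
  obtain ⟨n, A, hn, hA, hcard, hAA, hbad⟩ := Pool.Agent.R92.Lev.exists_example C
  have hApos : (0 : ℝ) < A.card := by exact_mod_cast Finset.card_pos.mpr hA
  refine ⟨n, A, hn, hA, ?_, ?_, ?_, ?_⟩
  · rw [lt_inv_mul_iff₀ hC₁]
    calc C₁ * (A.card : ℝ) ≤ C * A.card := by nlinarith
      _ < n := by exact_mod_cast hcard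
  · have h1 : (4 : ℝ) * (A + A).card ≤ 9 * A.card := by exact_mod_cast hAA
    nlinarith
  · have h1 : (4 : ℝ) * (A + A).card ≤ 9 * A.card := by exact_mod_cast hAA
    linarith
  · intro H P hH hcov
    have hcov' : ∀ a ∈ A, ∃ p ∈ P, a - p ∈ H := by
      intro a ha
      obtain ⟨p, hp, h, hh, rfl⟩ := hcov a ha
      exact ⟨p, hp, by rwa [add_sub_cancel_left]⟩
    obtain ⟨b1, b2, b3⟩ := hbad H P hH hcov'
    refine ⟨?_, ?_, ?_⟩
    · intro hP
      have h1 : P.card ≤ C := by
        have : (P.card : ℝ) ≤ C := hP.trans hC2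
        exact_mod_cast this
      have h2 := b1 h1
      have h3 : ((A + A).card : ℝ) + P.card * Nat.card H < A.card + (P + P).card * Nat.card H := by
        exact_mod_cast h2
      linarith
    · intro hP
      have h2 := b2 hP
      have h3 : ((A + A).card : ℝ) + Nat.card H < A.card + P.card * Nat.card H := by
        exact_mod_cast h2
      linarith
    · intro hP hbig
      have h1 : P.card * Nat.card H ≤ C * A.card := by
        have : (P.card : ℝ) * Nat.card H ≤ C * A.card := by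
          refine hbig.trans ?_
          nlinarith
        exact_mod_cast this
      have h2 := b3 hP h1
      have h3 : ((A + A).card : ℝ) + P.card * Nat.card H < A.card + (P + P).card * Nat.card H := by
        exact_mod_cast h2
      linarith

end Pool.Agent.Results.MP_09e095_co.NoEfficientPair
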